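import Mathlib
import Pool.Agent.H697R2.RL.Main
import Pool.Agent.W953.NB.DTree

/-!
# Decision trees over monotone networks and the random walk problem
-/

set_option autoImplicit false

namespace Pool.Agent.W953.RW

open Relation H534R2.NotNet H697R2.RL Pool.Agent.H540R2 Pool.Agent.W953.NW
open Pool.Agent.W953.SP Pool.Agent.W953.NB

variable {v : ℕ}

/-- the digraph with the arcs whose bits are true -/
def dg (x : Fin (v * v) → Bool) (a b : Fin v) : Prop := x (finProdFinEquiv (a, b)) = true

/-- a network with numbered nodes -/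
def toM (N : Net (Fin (v * v))) : MNet (Fin v) where
  size := 2 * N.size + 2
  start := ⟨0, by omega⟩
  acc := ⟨1, by omega⟩
  link p q := EqvGen N.free (node N p) (node N q)
  wire p q a b := ∃ e, N.lab e = finProdFinEquiv (a, b) ∧ p = fstN N e ∧ q = sndN N e

theorem toM_accepts (N : Net (Fin (v * v))) (x : Fin (v * v) → Bool) :
    (toM N).Accepts (dg x) ↔ N.Acc x := by
  have hs : node N (toM N).start = N.src := rfl
  have ht : node N (toM N).acc = N.snk := rfl
  constructor
  · intro h
    have key : ∀ p q : Fin (2 * N.size + 2), EqvGen ((toM N).Pass (dg x)) p q →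
        EqvGen (N.On x) (node N p) (node N q) := by
      intro p q hpq
      induction hpq with
      | rel p q h =>
        rcases h with h | ⟨a, b, ⟨e, he, rfl, rfl⟩, hab⟩
        · exact EqvGen.mono (fun _ _ h => Or.inl h) _ _ h
        · rw [node_fst, node_snd]
          refine EqvGen.rel _ _ (Or.inr ⟨e, ?_, rfl, rfl⟩)
          rw [he]
          exact hab
      | refl p => exact EqvGen.refl _
      | symm p q _ ih => exact EqvGen.symm _ _ ih
      | trans p q r _ _ ih1 ih2 => exact EqvGen.trans _ _ _ ih1 ih2
    have := key _ _ h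
    rw [hs, ht] at this
    exact this
  · intro h
    by_contra hcon
    refine Net.not_acc (N := N) (x := x)
      (fun a => ∃ p, EqvGen ((toM N).Pass (dg x)) (toM N).start p ∧ EqvGen N.free (node N p) a)
      ?_ ?_ ?_ h
    · have step : ∀ e, x (N.lab e) = true →
          EqvGen ((toM N).Pass (dg x)) (fstN N e) (sndN N e) := by
        intro e he
        obtain ⟨ab, hab⟩ := finProdFinEquiv.surjective (N.lab e)
        refine EqvGen.rel _ _ (Or.inr ⟨ab.1, ab.2, ⟨e, hab.symm, rfl, rfl⟩, ?_⟩)
        show x (finProdFinEquiv (ab.1, ab.2)) = true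
        rw [show (ab.1, ab.2) = ab from rfl, hab]
        exact he
      rintro a b (hab | ⟨e, he, rfl, rfl⟩)
      · constructor
        · rintro ⟨p, h1, h2⟩
          exact ⟨p, h1, EqvGen.trans _ _ _ h2 (EqvGen.rel _ _ hab)⟩
        · rintro ⟨p, h1, h2⟩
          exact ⟨p, h1, EqvGen.trans _ _ _ h2 (EqvGen.symm _ _ (EqvGen.rel _ _ hab))⟩
      · constructor
        · rintro ⟨p, h1, h2⟩
          rw [← node_fst] at h2
          refine ⟨sndN N e, EqvGen.trans _ _ _ (EqvGen.trans _ _ _ h1
            (EqvGen.rel _ _ (Or.inl h2))) (step e he), ?_⟩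
          rw [node_snd]
          exact EqvGen.refl _
        · rintro ⟨p, h1, h2⟩
          rw [← node_snd] at h2
          refine ⟨fstN N e, EqvGen.trans _ _ _ (EqvGen.trans _ _ _ h1
            (EqvGen.rel _ _ (Or.inl h2))) (EqvGen.symm _ _ (step e he)), ?_⟩
          rw [node_fst]
          exact EqvGen.refl _
    · exact ⟨(toM N).start, EqvGen.refl _, by rw [hs]; exact EqvGen.refl _⟩
    · rintro ⟨p, h1, h2⟩
      rw [← ht] at h2
      exact hcon (EqvGen.trans _ _ _ h1 (EqvGen.rel _ _ (Or.inl h2)))

/-- a tree as a computation in rounds -/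
def toN : DTree (Net (Fin (v * v))) → NTree (Fin v)
  | .out P => .out (toM P)
  | .ask P yes no => .ask 1 (fun _ => toM P)
      (fun a => if a 0 = true then toN yes else toN no)

open Classical in
theorem toN_eval (x : Fin (v * v) → Bool) : ∀ p : DTree (Net (Fin (v * v))),
    (toN p).eval (dg x) ↔ p.Acc (netTests _) x := by
  intro p
  induction p with
  | out P => exact toM_accepts P x
  | ask P yes no ih1 ih2 =>
    have e : (DTree.ask P yes no).Acc (netTests _) x ↔
      ((P.Acc x ∧ yes.Acc (netTests _) x) ∨ (¬ P.Acc x ∧ no.Acc (netTests _) x)) := Iff.rfl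
    have e1 : (toN (DTree.ask P yes no)).eval (dg x) ↔
        (if ans (fun _ : Fin 1 => toM P) (dg x) 0 = true then toN yes else toN no).eval (dg x) :=
      Iff.rfl
    have e2 : ans (fun _ : Fin 1 => toM P) (dg x) 0 = true ↔ P.Acc x := by
      unfold ans
      rw [decide_eq_true_iff]
      exact toM_accepts P x
    rw [e, e1]
    by_cases hP : P.Acc x
    · rw [if_pos (e2.2 hP), ih1]
      tauto
    · rw [if_neg (fun h => hP (e2.1 h)), ih2]
      tauto

theorem toN_cost : ∀ p : DTree (Net (Fin (v * v))), (toN p).cost ≤ 2 ^ p.depth := by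
  intro p
  induction p with
  | out P => exact le_rfl
  | ask P yes no ih1 ih2 =>
    show (1 + 1) * Finset.univ.sup (fun a : Fin 1 → Bool =>
      (if a 0 = true then toN yes else toN no).cost) ≤ 2 ^ (max yes.depth no.depth + 1)
    rw [pow_succ, Nat.mul_comm]
    refine Nat.mul_le_mul_right _ (Finset.sup_le fun a _ => ?_)
    split_ifs
    · exact ih1.trans (Nat.pow_le_pow_right (by norm_num) (le_max_left _ _))
    · exact ih2.trans (Nat.pow_le_pow_right (by norm_num) (le_max_right _ _))

theorem toN_load : ∀ p : DTree (Net (Fin (v * v))),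
    (toN p).load ≤ 2 * p.size (netTests _) := by
  intro p
  induction p with
  | out P =>
    show 2 * P.size + 2 ≤ 2 * (P.size + 1)
    omega
  | ask P yes no ih1 ih2 =>
    show (∑ _i : Fin 1, (2 * P.size + 2)) + Finset.univ.sup (fun a : Fin 1 → Bool =>
      (if a 0 = true then toN yes else toN no).load) ≤
        2 * (P.size + yes.size (netTests _) + no.size (netTests _) + 1)
    have h : Finset.univ.sup (fun a : Fin 1 → Bool =>
        (if a 0 = true then toN yes else toN no).load) ≤
        2 * (yes.size (netTests _) + no.size (netTests _)) := by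
      refine Finset.sup_le fun a _ => ?_
      split_ifs
      · omega
      · omega
    simp only [Finset.univ_unique, Finset.sum_const, Finset.card_singleton, one_smul] at h ⊢
    omega

/-- the number of arcs -/
def arcs (x : Fin (v * v) → Bool) : ℕ := (Finset.univ.filter (fun i => x i = true)).card

/-- The answer `A` is right for the digraph of `x`: it is yes if the random walk from `s` finds `t`
within `2 * v` steps with probability at least `1 / 2`, and no if there is no path from `s` to
`t`. -/
def Right (s t : Fin v) (x : Fin (v * v) → Bool) (A : Prop) : Prop :=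
  (1 / 2 ≤ hit (dg x) s t (2 * v) s → A) ∧ (¬ ReflTransGen (dg x) s t → ¬ A)

open Classical in
theorem low (K M W : ℕ) (hK : 1 ≤ K) (s t : Fin v) (hst : s ≠ t) (hV : M * 2 ^ (5 * K) + 2 ≤ v)
    (hW : M * 2 ^ (9 * K) < W) (p : DTree (Net (Fin (v * v))))
    (hload : 4 * 3 ^ (K + 1) * (2 * p.size (netTests _)) < 2 ^ (K * (K - 1)))
    (hp : ∀ x, arcs x < W → Right s t x (p.Acc (netTests _) x)) : M + 1 ≤ 2 ^ p.depth := by
  obtain ⟨H, h1, h2⟩ := H697R2.RL.general_bound K M hK (Fin v) s t hst (by rw [Fintype.card_fin]; exact hV)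
  refine (h2 (toN p) (lt_of_le_of_lt (Nat.mul_le_mul_left _ (toN_load p)) hload)
    fun G hG => ?_).trans (toN_cost p)
  obtain ⟨x, hx⟩ : ∃ x : Fin (v * v) → Bool, x = fun z => decide
    (G (finProdFinEquiv.symm z).1 (finProdFinEquiv.symm z).2) := ⟨_, rfl⟩
  have hdg : dg x = G := by
    funext a b
    unfold dg
    rw [hx]
    simp only [Equiv.symm_apply_apply, decide_eq_true_eq]
  have harc : arcs x ≤ {p : Fin v × Fin v | H p.1 p.2}.ncard := by
    unfold arcs
    rw [← Finset.card_image_of_injective _ finProdFinEquiv.symm.injective,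
      ← Set.ncard_coe_finset]
    refine Set.ncard_le_ncard ?_ (Set.toFinite _)
    intro ab hab
    rw [Finset.mem_coe, Finset.mem_image] at hab
    obtain ⟨z, hz, rfl⟩ := hab
    rw [Finset.mem_filter, hx, decide_eq_true_iff] at hz
    exact hG _ _ hz.2
  have hr := hp x (by omega)
  rw [← hdg, toN_eval x p]
  refine ⟨fun h => hr.1 (h.trans (hit_mono _ _ _ ?_ _)), hr.2⟩
  have : M * 2 ^ (5 * K) ≤ v := by omega
  omega

end Pool.Agent.W953.RW
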