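import Mathlib
import Pool.Agent.W953.RW.Conv

/-!
# The random walk problem on few and on many numbers of arcs
-/

set_option autoImplicit false

namespace Pool.Agent.W953.RW

open Filter Relation H697R2.RL Pool.Agent.H540R2 Pool.Agent.W953.NW
open Pool.Agent.W953.SP Pool.Agent.W953.NB

/-- the variables and their negations -/
def literals {n : ℕ} (x : Fin n → Bool) : Fin (n + n) → Bool := Fin.append x (fun i => !(x i))

/-- The random walk problem for `v` vertices has undirected networks over the literals of size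
`v ^ c`: the nonuniform form of `RL = L` (for promise problems). -/
def Easy : Prop := ∃ c : ℕ, ∀ (v : ℕ) (s t : Fin v), s ≠ t →
  ∃ N : Net (Fin (v * v + v * v)), N.size ≤ v ^ c ∧ ∀ x, Right s t x (N.Acc (literals x))

/-- For every `k` there are decision trees of depth at most `τ v` and size `v ^ c` whose tests and
leaves are monotone undirected networks, and which are right on the digraphs with at least `k` and
less than `k + W v` arcs. -/
def EasyOn (τ W : ℕ → ℕ) : Prop := ∃ c : ℕ, ∀ (v : ℕ) (s t : Fin v), s ≠ t → ∀ k,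
  ∃ p : DTree (Net (Fin (v * v))), p.depth ≤ τ v ∧ p.size (netTests _) ≤ v ^ c ∧
    ∀ x, k ≤ arcs x → arcs x < k + W v → Right s t x (p.Acc (netTests _) x)

lemma two_le {v : ℕ} {s t : Fin v} (h : s ≠ t) : 2 ≤ v := by
  have h1 := s.isLt
  have h2 := t.isLt
  have h3 : s.val ≠ t.val := fun h' => h (Fin.ext h')
  omega

lemma tde_sq {v : ℕ} (hv : 2 ≤ v) : 2 ^ tde (v * v) ≤ v ^ 60 := by
  have h := p_tde (S := v ^ 2) (n := v * v) (hv.trans (Nat.le_self_pow (by norm_num) v))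
    (by rw [pow_two])
  rwa [← pow_mul] at h

lemma Right.congr {v : ℕ} {s t : Fin v} {x : Fin (v * v) → Bool} {A B : Prop} (h : A ↔ B) :
    Right s t x A ↔ Right s t x B := by
  unfold Right
  rw [h]

open Classical in
theorem on_of_easy (τ W : ℕ → ℕ) (hW : ∀ v, W v ≤ 2 ^ τ v) (h : Easy) : EasyOn τ W := by
  obtain ⟨c, hc⟩ := h
  refine ⟨c + 70, fun v s t hst k => ?_⟩
  have hv := two_le hst
  obtain ⟨N, hN, hNx⟩ := hc v s t hst
  obtain ⟨n, hn⟩ : ∃ n, n = v * v := ⟨_, rfl⟩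
  have hL : und.L (fun x : Fin (v * v) → Bool => decide (N.Acc (literals x))) (v ^ c) :=
    ⟨fun y => decide (N.Acc y), ⟨N, hN, fun y => decide_eq_true_iff.symm⟩, fun x => rfl⟩
  obtain ⟨r, hr⟩ : ∃ r, r = min (τ v) (Nat.log 2 (v * v) + 1) := ⟨_, rfl⟩
  obtain ⟨g, h1, h2⟩ := Model.mux_from (𝓜 := und) (A := (v ^ c + 1) * 2 ^ tde (v * v)) 1
    (fun k' => by
      obtain ⟨g, g1, g2, -⟩ := Model.slice hL k'
      exact ⟨g, g1, fun x hx1 hx2 => g2 x (by omega)⟩) r k
  obtain ⟨p, p1, p2, p3⟩ := tree_of_TA (𝒯 := netTests (Fin (v * v))) (fun _ _ h => h) h1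
  refine ⟨p, p1.trans (by rw [hr]; exact min_le_left _ _), p2.trans ?_, fun x hx1 hx2 => ?_⟩
  · have e0 := tde_sq hv
    have e1 : 2 ^ r ≤ v ^ 3 := by
      have hvv : 0 < v * v := Nat.mul_pos (by omega) (by omega)
      calc 2 ^ r ≤ 2 ^ (Nat.log 2 (v * v) + 1) :=
            Nat.pow_le_pow_right (by norm_num) (by rw [hr]; exact min_le_right _ _)
        _ = 2 ^ Nat.log 2 (v * v) * 2 := pow_succ _ _
        _ ≤ (v * v) * v := Nat.mul_le_mul (Nat.pow_log_le_self 2 hvv.ne') hv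
        _ = v ^ 3 := by ring
    have e2 : v ^ c + 1 ≤ v ^ (c + 1) := p_add hv le_rfl (Nat.one_le_pow _ _ (by omega))
    have e3 : (v ^ c + 1) * 2 ^ tde (v * v) ≤ v ^ (c + 61) := by
      calc (v ^ c + 1) * 2 ^ tde (v * v) ≤ v ^ (c + 1) * v ^ 60 := Nat.mul_le_mul e2 e0
        _ = v ^ (c + 61) := by rw [← pow_add]
    have e4 : (v ^ c + 1) * 2 ^ tde (v * v) + 1 ≤ v ^ (c + 62) :=
      p_add hv e3 (Nat.one_le_pow _ _ (by omega))
    have e5 : 2 ^ tde (v * v) + 1 ≤ v ^ (c + 62) :=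
      p_add hv (e0.trans (p_pow hv (by omega))) (Nat.one_le_pow _ _ (by omega))
    have e6 : 2 ^ r * ((v ^ c + 1) * 2 ^ tde (v * v) + 1) ≤ v ^ (c + 65) := by
      calc _ ≤ v ^ 3 * v ^ (c + 62) := Nat.mul_le_mul e1 e4
        _ = v ^ (c + 65) := by rw [← pow_add]; congr 1; ring
    have e7 : (2 ^ r - 1) * (2 ^ tde (v * v) + 1) ≤ v ^ (c + 65) := by
      calc _ ≤ v ^ 3 * v ^ (c + 62) := Nat.mul_le_mul ((Nat.sub_le _ _).trans e1) e5
        _ = v ^ (c + 65) := by rw [← pow_add]; congr 1; ring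
    exact (p_add hv e6 e7).trans (p_pow hv (by omega))
  · rw [Right.congr (p3 x)]
    have h3 : g x = decide (N.Acc (literals x)) := by
      refine h2 x hx1 ?_
      have hx2' : wt x < k + W v := hx2
      rw [one_mul]
      rcases le_total (τ v) (Nat.log 2 (v * v) + 1) with h | h
      · rw [hr, min_eq_left h]
        have := hW v
        omega
      · rw [hr, min_eq_right h]
        have h9 : v * v < 2 ^ (Nat.log 2 (v * v) + 1) :=
          Nat.lt_pow_succ_log_self (by norm_num) _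
        have := wt_le x
        omega
    rw [h3, Right.congr decide_eq_true_iff]
    exact hNx x

open Classical in
theorem easy_of_on (τ W : ℕ → ℕ) (hW : ∀ v, 1 ≤ W v) (h : EasyOn τ W) : Easy := by
  obtain ⟨c, hc⟩ := h
  refine ⟨183 * c + 11800, fun v s t hst => ?_⟩
  have hv := two_le hst
  choose p p1 p2 p3 using hc v s t hst
  obtain ⟨f, hf⟩ : ∃ f : ℕ → BF (v * v), f = fun k x => decide ((p k).Acc (netTests _) x) :=
    ⟨_, rfl⟩
  have hfL : ∀ k, und.L (f k) (2 ^ 184 * (v ^ c) ^ 183) := by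
    intro k
    rw [hf]
    exact Model.TA.toL (by norm_num) und_compl
      (TA_of_tree (𝓜 := und) (𝒯 := netTests (Fin (v * v))) (fun P => ⟨P, le_rfl, fun x => by
        rw [decide_eq_true_iff]; rfl⟩) (p k) (τ v) (v ^ c) (p1 k) (p2 k))
  have e0 := tde_sq hv
  have e1 : 2 ^ tde (v * v) ≤ v ^ (183 * c + 11400) := e0.trans (p_pow hv (by omega))
  have e2 : (2 ^ tde (v * v) + 2) ^ 183 ≤ v ^ (183 * c + 11400) := by
    have h1 : 2 ^ tde (v * v) + 2 ≤ v ^ 61 :=
      p_add hv e0 (hv.trans (Nat.le_self_pow (by norm_num) v))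
    calc (2 ^ tde (v * v) + 2) ^ 183 ≤ (v ^ 61) ^ 183 := Nat.pow_le_pow_left h1 _
      _ = v ^ 11163 := by rw [← pow_mul]
      _ ≤ v ^ (183 * c + 11400) := p_pow hv (by omega)
  have e3 : 2 ^ 184 * (v ^ c) ^ 183 ≤ v ^ (183 * c + 11400) := by
    calc 2 ^ 184 * (v ^ c) ^ 183 ≤ v ^ 184 * (v ^ c) ^ 183 :=
          Nat.mul_le_mul_right _ (p_two hv 184)
      _ = v ^ (183 * c + 184) := by rw [← pow_mul, ← pow_add]; congr 1; ring
      _ ≤ v ^ (183 * c + 11400) := p_pow hv (by omega)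
  have hpart : ∀ k, und.L (fun x : Fin (v * v) → Bool =>
      ((thr k x && !(thr (k + 1) x)) && f k x)) (v ^ (183 * c + 11402)) := by
    intro k
    have h1 := ((Model.L.of_K (Model.thr (𝓜 := und) (n := v * v) k)).and'
      (und_compl _ _ (Model.thr (𝓜 := und) (n := v * v) (k + 1)))).and' (hfL k)
    refine h1.mono' ?_
    exact p_add hv (p_add hv e1 e2) (e3.trans (p_pow hv (by omega)))
  have hall := any_L und (fun k : Fin (v * v + 1) => hpart k.val)
  obtain ⟨Q, ⟨N, hN, hNQ⟩, hQ⟩ := hall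
  refine ⟨N, hN.trans ?_, fun x => ?_⟩
  · have h1 : 2 ^ tde (v * v + 1) ≤ v ^ 90 := by
      have hS : 2 ≤ v ^ 3 := hv.trans (Nat.le_self_pow (by norm_num) v)
      have h2 : v * v + 1 ≤ v ^ 3 := by
        have : v * v + v * v ≤ v ^ 3 := by
          calc v * v + v * v = 2 * (v * v) := by ring
            _ ≤ v * (v * v) := Nat.mul_le_mul_right _ hv
            _ = v ^ 3 := by ring
        have : 1 ≤ v * v := Nat.mul_pos (by omega) (by omega)
        omega
      have h3 := p_tde hS h2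
      rwa [← pow_mul] at h3
    calc 2 ^ tde (v * v + 1) * v ^ (183 * c + 11402) ≤ v ^ 90 * v ^ (183 * c + 11402) :=
          Nat.mul_le_mul_right _ h1
      _ = v ^ (90 + (183 * c + 11402)) := by rw [← pow_add]
      _ ≤ v ^ (183 * c + 11800) := p_pow hv (by omega)
  · have hacc : N.Acc (literals x) ↔ (p (wt x)).Acc (netTests _) x := by
      have h1 := (hNQ (lits x)).trans (by rw [hQ x] : Q (lits x) = true ↔ _ = true)
      have h2 : literals x = lits x := rfl
      rw [h2, h1, decide_eq_true_iff]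
      constructor
      · rintro ⟨k, hk⟩
        rw [Bool.and_eq_true, Bool.and_eq_true, Bool.not_eq_true'] at hk
        obtain ⟨⟨k1, k2⟩, k3⟩ := hk
        have hkx : k.val = wt x := by
          unfold thr at k1 k2
          rw [decide_eq_true_iff] at k1
          rw [decide_eq_false_iff_not] at k2
          omega
        rw [hkx, hf] at k3
        exact decide_eq_true_iff.1 k3
      · intro h3
        refine ⟨⟨wt x, Nat.lt_succ_of_le (wt_le x)⟩, ?_⟩
        rw [Bool.and_eq_true, Bool.and_eq_true, Bool.not_eq_true']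
        refine ⟨⟨?_, ?_⟩, ?_⟩
        · unfold thr
          exact decide_eq_true_iff.2 le_rfl
        · unfold thr
          rw [decide_eq_false_iff_not]
          show ¬ wt x + 1 ≤ wt x
          omega
        · rw [hf]
          exact decide_eq_true_iff.2 h3
    rw [Right.congr hacc]
    exact p3 (wt x) x le_rfl (by
      have := hW v
      have h4 : arcs x = wt x := rfl
      omega)

theorem easy_iff (τ W : ℕ → ℕ) (hW : ∀ v, 1 ≤ W v ∧ W v ≤ 2 ^ τ v) : EasyOn τ W ↔ Easy :=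
  ⟨easy_of_on τ W (fun v => (hW v).1), on_of_easy τ W (fun v => (hW v).2)⟩

theorem not_on (τ W : ℕ → ℕ)
    (h : ∀ C : ℕ, ∃ᶠ v : ℕ in atTop, 2 ^ (τ v + C * (Nat.sqrt (Nat.log 2 v) + 1)) ≤
      min (W v) v) : ¬ EasyOn τ W := by
  rintro ⟨c, hc⟩
  obtain ⟨v, hv2, hv⟩ := frequently_atTop.1 (h (9 * (c + 6) + 2)) 2
  obtain ⟨σ, hσ⟩ : ∃ σ, σ = Nat.sqrt (Nat.log 2 v) := ⟨_, rfl⟩
  obtain ⟨L, hL⟩ : ∃ L, L = Nat.log 2 v := ⟨_, rfl⟩
  rw [← hσ] at hv
  have hσ2 : L + 1 ≤ (σ + 1) * (σ + 1) := by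
    rw [hσ, hL]
    exact Nat.lt_succ_sqrt _
  have hnL : v < 2 ^ (L + 1) := by
    rw [hL]
    exact Nat.lt_pow_succ_log_self (by norm_num) v
  obtain ⟨K, hK⟩ : ∃ K, K = (c + 6) * (σ + 1) := ⟨_, rfl⟩
  have hK1 : 1 ≤ K := by rw [hK]; exact Nat.mul_pos (by omega) (Nat.succ_pos σ)
  have hexp : τ v + 9 * K + 2 ≤ τ v + (9 * (c + 6) + 2) * (σ + 1) := by
    rw [hK]
    have : (9 * (c + 6) + 2) * (σ + 1) = 9 * ((c + 6) * (σ + 1)) + 2 * (σ + 1) := by ring
    omega
  have hbig : 2 ^ (τ v + 9 * K + 2) ≤ min (W v) v :=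
    (Nat.pow_le_pow_right (by norm_num) hexp).trans hv
  have hsplit : 2 ^ (τ v + 9 * K + 2) = 4 * (2 ^ τ v * 2 ^ (9 * K)) := by
    rw [pow_add, pow_add]
    ring
  have hpos : 1 ≤ 2 ^ τ v * 2 ^ (9 * K) := Nat.mul_pos (Nat.pow_pos (by norm_num))
    (Nat.pow_pos (by norm_num))
  have h59 : 2 ^ τ v * 2 ^ (5 * K) ≤ 2 ^ τ v * 2 ^ (9 * K) :=
    Nat.mul_le_mul_left _ (Nat.pow_le_pow_right (by norm_num) (by omega))
  have hm1 : min (W v) v ≤ W v := min_le_left _ _
  have hm2 : min (W v) v ≤ v := min_le_right _ _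
  have hst : (⟨0, by omega⟩ : Fin v) ≠ ⟨1, by omega⟩ := by
    intro h
    exact absurd (congrArg Fin.val h) (by norm_num)
  obtain ⟨p, p1, p2, p3⟩ := hc v ⟨0, by omega⟩ ⟨1, by omega⟩ hst 0
  have hlow := low K (2 ^ τ v) (W v) hK1 _ _ hst (by omega) (by omega) p ?_
    (fun x hx => p3 x (Nat.zero_le _) (by omega))
  · have := Nat.pow_le_pow_right (n := 2) (by norm_num) p1
    omega
  · have e1 : 4 * 3 ^ (K + 1) ≤ 2 ^ (2 * K + 4) := by
      have : (3 : ℕ) ^ (K + 1) ≤ 4 ^ (K + 1) := Nat.pow_le_pow_left (by norm_num) _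
      calc 4 * 3 ^ (K + 1) ≤ 4 * 4 ^ (K + 1) := by omega
        _ = 2 ^ (2 * K + 4) := by
          rw [show (4 : ℕ) = 2 ^ 2 from rfl, ← pow_mul, ← pow_add]; congr 1; ring
    have e2 : 2 * p.size (netTests _) ≤ 2 ^ ((L + 1) * c + 1) := by
      have : p.size (netTests _) ≤ 2 ^ ((L + 1) * c) := by
        calc p.size (netTests _) ≤ v ^ c := p2
          _ ≤ (2 ^ (L + 1)) ^ c := Nat.pow_le_pow_left hnL.le _
          _ = 2 ^ ((L + 1) * c) := by rw [← pow_mul]
      rw [pow_succ]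
      omega
    calc 4 * 3 ^ (K + 1) * (2 * p.size (netTests _)) ≤ 2 ^ (2 * K + 4) * 2 ^ ((L + 1) * c + 1) :=
          Nat.mul_le_mul e1 e2
      _ = 2 ^ (2 * K + 4 + ((L + 1) * c + 1)) := by rw [← pow_add]
      _ < 2 ^ (K * (K - 1)) := by
        apply Nat.pow_lt_pow_right (by norm_num)
        obtain ⟨k, hk⟩ : ∃ k, K = k + 1 := ⟨K - 1, by omega⟩
        have hk' : K - 1 = k := by omega
        rw [hk']
        obtain ⟨u, hu⟩ : ∃ u, u = σ + 1 := ⟨_, rfl⟩
        rw [← hu] at hσ2 hK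
        have hu1 : 1 ≤ u := by omega
        have e3 : (L + 1) * c ≤ u * u * c := Nat.mul_le_mul_right _ hσ2
        have e4 : K * K = (c + 6) * (c + 6) * (u * u) := by rw [hK]; ring
        have e5 : K ≤ (c + 6) * (u * u) := by
          rw [hK]; exact Nat.mul_le_mul_left _ (Nat.le_mul_self _)
        have e6 : K * K = K * k + K := by rw [hk]; ring
        have e7 : 1 ≤ u * u := Nat.mul_pos hu1 hu1
        have e8 : (c + 6) * (c + 6) * (u * u) = c * c * (u * u) + 12 * c * (u * u) +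
          36 * (u * u) := by ring
        have e9 : (c + 6) * (u * u) = c * (u * u) + 6 * (u * u) := by ring
        have e10 : u * u * c = c * (u * u) := by ring
        have e11 : 12 * c * (u * u) = 12 * (c * (u * u)) := by ring
        have e12 : 0 ≤ c * c * (u * u) := Nat.zero_le _
        omega

end Pool.Agent.W953.RW
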